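import Pool.Agent.H65.Sat.Lower

/-!
# Stability for saturated graphs with linear edge deficit

For fixed `r ≥ 2` and large `n` we determine `g_r(n, m)` in the whole range
`n / r ≤ m ≤ (r - 1) n / r`, up to multiplicative constants depending only on `r`:
writing `m = k n / r + θ` with `k = ⌊r m / n⌋` and `0 ≤ θ < n / r`, it has the order of magnitude
`max (n ^ (1 - 1 / k)) (θ ^ (1 - 1 / (k + 1)))`.
-/

namespace Pool.Agent.Results.MP_506aae_co.LinearDeficit

/-- `G` is `(r+1)`-saturated: it has no `K_{r+1}`, and adding any missing edge creates one. -/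
def IsSaturated {V : Type} (r : ℕ) (G : SimpleGraph V) : Prop :=
  G.CliqueFree (r + 1) ∧
    ∀ u v : V, u ≠ v → ¬ G.Adj u v → ¬ (G ⊔ SimpleGraph.edge u v).CliqueFree (r + 1)

/-- The number of edges of the Turán graph `T_r(n)`. -/
noncomputable def turanNumber (r n : ℕ) : ℕ := (SimpleGraph.turanGraph n r).edgeSet.ncard

/-- `G` is complete `r`-partite; parts may be empty. -/
def IsCompletePartite {V : Type} (r : ℕ) (G : SimpleGraph V) : Prop :=
  ∃ f : V → Fin r, ∀ u v, G.Adj u v ↔ f u ≠ f v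

/-- The least number of vertices whose deletion leaves a complete `r`-partite graph. -/
noncomputable def deletionNumber {V : Type} (r : ℕ) (G : SimpleGraph V) : ℕ :=
  sInf {d : ℕ | ∃ D : Set V, D.ncard = d ∧ IsCompletePartite r (G.induce Dᶜ)}

/-- The values of `deletionNumber` over the `(r+1)`-saturated graphs on `n` vertices with at
least `t_r(n) - m` edges. -/
def values (r n m : ℕ) : Set ℕ :=
  {d : ℕ | ∃ G : SimpleGraph (Fin n), IsSaturated r G ∧
    turanNumber r n ≤ G.edgeSet.ncard + m ∧ deletionNumber r G = d}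

/-- `g_r(n, m)`, the maximum of `values r n m`. -/
noncomputable def g (r n m : ℕ) : ℕ := sSup (values r n m)

lemma deletion_le {n r d : ℕ} {G : SimpleGraph (Fin n)} {D : Finset (Fin n)} (hd : D.card = d)
    (h : ∃ f : Fin n → Fin r, ∀ u v, u ∉ D → v ∉ D → (G.Adj u v ↔ f u ≠ f v)) :
    deletionNumber r G ≤ d := by
  obtain ⟨f, hf⟩ := h
  apply Nat.sInf_le
  refine ⟨(D : Set (Fin n)), by rw [Set.ncard_coe_finset, hd], fun v => f v, ?_⟩
  rintro ⟨u, hu⟩ ⟨v, hv⟩
  rw [SimpleGraph.comap_adj]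
  exact hf u v (by simpa using hu) (by simpa using hv)

lemma exists_deletion {n r : ℕ} (hr : 0 < r) (G : SimpleGraph (Fin n)) :
    ∃ (D : Finset (Fin n)) (f : Fin n → Fin r), D.card = deletionNumber r G ∧
      ∀ u v, u ∉ D → v ∉ D → (G.Adj u v ↔ f u ≠ f v) := by
  classical
  have hne : {d : ℕ | ∃ D : Set (Fin n), D.ncard = d ∧
      IsCompletePartite r (G.induce Dᶜ)}.Nonempty := by
    refine ⟨_, Set.univ, rfl, fun _ => ⟨0, hr⟩, ?_⟩
    rintro ⟨u, hu⟩
    exact absurd (Set.mem_univ u) hu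
  obtain ⟨D, hD, f, hf⟩ := Nat.sInf_mem hne
  refine ⟨D.toFinset, fun v => if h : v ∈ Dᶜ then f ⟨v, h⟩ else ⟨0, hr⟩, ?_, ?_⟩
  · rw [← Set.ncard_eq_toFinset_card']
    exact hD
  · intro u v hu hv
    have hu' : u ∈ Dᶜ := by simpa using hu
    have hv' : v ∈ Dᶜ := by simpa using hv
    simp only [hu', hv', dif_pos]
    rw [← hf ⟨u, hu'⟩ ⟨v, hv'⟩]
    rfl

lemma bddAbove_values {r : ℕ} (hr : 0 < r) (n m : ℕ) : BddAbove (values r n m) := by
  refine ⟨n, ?_⟩
  rintro d ⟨G, _, _, rfl⟩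
  obtain ⟨D, f, hD, _⟩ := exists_deletion hr G
  rw [← hD]
  exact (Finset.card_le_univ D).trans (by simp)

/-- For fixed `r ≥ 2` and large `n`, in the whole range `n / r ≤ m ≤ (r - 1) n / r`, with
`k = ⌊r m / n⌋` and `θ = m - k n / r`, the maximum `g_r(n, m)` (which is attained) is
`max (n ^ (1 - 1 / k)) (θ ^ (1 - 1 / (k + 1)))` up to constants depending only on `r`. -/
theorem result (r : ℕ) (hr : 2 ≤ r) :
    ∃ c C : ℝ, 0 < c ∧ 0 < C ∧ ∃ n₀ : ℕ, ∀ (n m k : ℕ) (θ : ℝ), n₀ ≤ n →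
      n ≤ r * m → r * m ≤ (r - 1) * n → k = r * m / n → θ = m - k * (n : ℝ) / r →
        IsGreatest (values r n m) (g r n m) ∧
        c * max ((n : ℝ) ^ (1 - 1 / (k : ℝ))) (θ ^ (1 - 1 / ((k : ℝ) + 1))) ≤ g r n m ∧
        g r n m ≤ C * max ((n : ℝ) ^ (1 - 1 / (k : ℝ))) (θ ^ (1 - 1 / ((k : ℝ) + 1))) := by
  obtain ⟨n₁, hup⟩ := Pool.Agent.H65.Sat.upper r hr
  have hrR : (2 : ℝ) ≤ r := by exact_mod_cast hr
  refine ⟨Pool.Agent.H65.Sat.Clow r, Pool.Agent.H65.Sat.Cup r,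
    Pool.Agent.H65.Sat.Clow_pos r hr, ?_, n₁ + 2 * r ^ 3 + 64 * r, ?_⟩
  · unfold Pool.Agent.H65.Sat.Cup
    have hC2 : 0 ≤ Pool.Agent.H65.Sat.C2 r := by
      unfold Pool.Agent.H65.Sat.C2
      positivity
    have hKr : 0 ≤ Pool.Agent.H65.Sat.Kr r := by
      unfold Pool.Agent.H65.Sat.Kr
      apply Finset.sum_nonneg
      intro t _
      have h1 := Pool.Agent.H65.Sat.CD_nonneg r t
      have h2 := Pool.Agent.H65.Sat.CD_nonneg r (t - 1)
      positivity
    positivity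
  intro n m k θ hn hm1 hm2 hk hθ
  have hnpos : 0 < n := by
    have : 0 < 64 * r := by omega
    omega
  have hnR : (0 : ℝ) < n := by exact_mod_cast hnpos
  have hrpos : (0 : ℝ) < r := by linarith
  have hk1 : 1 ≤ k := by
    rw [hk, Nat.le_div_iff_mul_le hnpos]
    linarith
  have hkr : k + 1 ≤ r := by
    have : k ≤ r - 1 := by
      rw [hk]
      exact Nat.div_le_of_le_mul (by rw [mul_comm n]; exact hm2)
    omega
  have hkn : k * n ≤ r * m := by rw [hk]; exact Nat.div_mul_le_self _ _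
  have hkn' : r * m < (k + 1) * n := by
    rw [hk, ← Nat.div_lt_iff_lt_mul hnpos]
    exact Nat.lt_succ_self _
  have hm : (m : ℝ) = k * n / r + θ := by rw [hθ]; ring
  have hθ0 : 0 ≤ θ := by
    rw [hθ, sub_nonneg, div_le_iff₀ hrpos]
    have : ((k * n : ℕ) : ℝ) ≤ ((r * m : ℕ) : ℝ) := by exact_mod_cast hkn
    push_cast at this
    linarith
  have hθn : θ < n / r := by
    rw [hθ, sub_lt_iff_lt_add, ← add_div, lt_div_iff₀ hrpos]
    have : ((r * m : ℕ) : ℝ) < (((k + 1) * n : ℕ) : ℝ) := by exact_mod_cast hkn'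
    push_cast at this
    linarith
  have hmn : m ≤ n := by
    have h1 : r * m ≤ r * n := hm2.trans (Nat.mul_le_mul_right _ (Nat.sub_le _ _))
    exact Nat.le_of_mul_le_mul_left h1 (by omega)
  obtain ⟨G₀, hG1, hG2, hG3⟩ := Pool.Agent.H65.Sat.lower r hr n m k θ (by omega) (by omega) hk1
    hkr hm hθ0 hθn
  have hbdd := bddAbove_values (by omega : 0 < r) n m
  have hmem : deletionNumber r G₀ ∈ values r n m := ⟨G₀, hG1, hG2, rfl⟩
  have hgm : g r n m ∈ values r n m := Nat.sSup_mem ⟨_, hmem⟩ hbdd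
  refine ⟨⟨hgm, fun d hd => le_csSup hbdd hd⟩, ?_, ?_⟩
  · obtain ⟨D, f, hD, hDf⟩ := exists_deletion (by omega : 0 < r) G₀
    have h1 := hG3 D f hDf
    rw [hD] at h1
    have h2 : (deletionNumber r G₀ : ℝ) ≤ g r n m := by exact_mod_cast le_csSup hbdd hmem
    exact h1.trans h2
  · obtain ⟨G, hGs, hGe, hGd⟩ := hgm
    obtain ⟨D, hDc, hDf⟩ := hup (Fin n) G m k θ (by rw [Fintype.card_fin]; omega) hGs
      (by rw [Fintype.card_fin]; exact hGe) hk1 (by rw [Fintype.card_fin]; exact hmn)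
      (by rw [Fintype.card_fin]; exact hm) hθ0 (by rw [Fintype.card_fin]; exact hθn)
    rw [Fintype.card_fin] at hDc
    have h1 : deletionNumber r G ≤ D.card := deletion_le rfl hDf
    rw [hGd] at h1
    have h2 : (g r n m : ℝ) ≤ D.card := by exact_mod_cast h1
    exact h2.trans hDc

end Pool.Agent.Results.MP_506aae_co.LinearDeficit
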